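import Mathlib

set_option autoImplicit false

/-!
# No syndetic set is a weak interpolation set of order 2 for totally transitive systems
-/

namespace Pool.Agent.Results.MP_816335_an.SyndeticFails

universe u

/-- `(X, T)` is topologically transitive: for all nonempty open `U, V` there is `n ≥ 1` with
`U ∩ T⁻ⁿ V ≠ ∅`. -/
def IsTopTransitive {X : Type u} [TopologicalSpace X] (T : X → X) : Prop :=
  ∀ U V : Set X, IsOpen U → IsOpen V → U.Nonempty → V.Nonempty →
    ∃ n : ℕ, 1 ≤ n ∧ (U ∩ (T^[n]) ⁻¹' V).Nonempty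

/-- `(X, T)` is totally transitive: `(X, T^m)` is topologically transitive for every `m ≥ 1`. -/
def IsTotallyTransitive {X : Type u} [TopologicalSpace X] (T : X → X) : Prop :=
  ∀ m : ℕ, 1 ≤ m → IsTopTransitive (T^[m])

/-- A set `S` of positive integers is syndetic: there is `L ≥ 1` such that every interval
`{n, n+1, …, n+L}` with `n ≥ 1` meets `S`. -/
def IsSyndetic (S : Set ℕ) : Prop :=
  ∃ L : ℕ, 1 ≤ L ∧ ∀ n : ℕ, 1 ≤ n → ∃ s ∈ S, n ≤ s ∧ s ≤ n + L

/-- `S` is a weak interpolation set of order `k` for the class of totally transitive systems: for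
every `f : S → {0, …, k-1}` there are a compact metric space `X`, a continuous totally transitive
`T : X → X`, a transitive point `x` (dense forward orbit) and a continuous `F : X → ℂ` with
`F (T^n x) = f n` for all `n ∈ S`. -/
def IsWeakInterpolationSet (k : ℕ) (S : Set ℕ) : Prop :=
  ∀ f : S → Fin k, ∃ (X : Type u) (_ : MetricSpace X) (_ : CompactSpace X) (T : X → X),
    Continuous T ∧ IsTotallyTransitive T ∧
      ∃ x : X, Dense (Set.range fun n : ℕ => T^[n] x) ∧
        ∃ F : X → ℂ, Continuous F ∧ ∀ n : S, F (T^[(n : ℕ)] x) = ((f n : ℕ) : ℂ)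

/-- In a totally transitive system a transitive point returns to each of its neighbourhoods along
every residue class. -/
theorem exists_return_residue {X : Type u} [TopologicalSpace X] {T : X → X} (hT : Continuous T)
    (htt : IsTotallyTransitive T) {x : X} (hx : Dense (Set.range fun n : ℕ => T^[n] x))
    {m : ℕ} (hm : 1 ≤ m) {U : Set X} (hU : IsOpen U) (hxU : x ∈ U) (r : ℕ) :
    ∃ n : ℕ, (n : ZMod m) = (r : ZMod m) ∧ T^[n] x ∈ U := by
  classical
  have : NeZero m := ⟨by omega⟩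
  -- residues of the return times
  let R : Set X → Set (ZMod m) := fun W => {a | ∃ n : ℕ, (n : ZMod m) = a ∧ T^[n] x ∈ W}
  have hRmono : ∀ W W' : Set X, W ⊆ W' → R W ⊆ R W' := by
    rintro W W' h a ⟨n, hn, hnW⟩
    exact ⟨n, hn, h hnW⟩
  -- choose a neighbourhood with the fewest residues
  let P : ℕ → Prop := fun c => ∃ W : Set X, IsOpen W ∧ x ∈ W ∧ (R W).ncard = c
  have hP : ∃ c, P c := ⟨(R Set.univ).ncard, Set.univ, isOpen_univ, Set.mem_univ _, rfl⟩
  obtain ⟨U₀, hU₀, hxU₀, hcard⟩ := Nat.find_spec hP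
  have hmin : ∀ W : Set X, IsOpen W → x ∈ W → (R U₀).ncard ≤ (R W).ncard := by
    intro W hW hxW
    rw [hcard]
    exact Nat.find_min' hP ⟨W, hW, hxW, rfl⟩
  have hstab : ∀ W : Set X, IsOpen W → x ∈ W → W ⊆ U₀ → R W = R U₀ := by
    intro W hW hxW hWU
    exact Set.eq_of_subset_of_ncard_le (hRmono _ _ hWU) (hmin W hW hxW) (Set.toFinite _)
  have hiter : ∀ n : ℕ, Continuous (T^[n]) := fun n => hT.iterate n
  have h0 : (0 : ZMod m) ∈ R U₀ := ⟨0, by simp, by simpa using hxU₀⟩
  have hadd : ∀ a b : ZMod m, a ∈ R U₀ → b ∈ R U₀ → a + b ∈ R U₀ := by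
    rintro a b ⟨na, hna, hnaU⟩ hb
    have hW : IsOpen (U₀ ∩ (T^[na]) ⁻¹' U₀) := hU₀.inter (hU₀.preimage (hiter na))
    have hxW : x ∈ U₀ ∩ (T^[na]) ⁻¹' U₀ := ⟨hxU₀, hnaU⟩
    rw [← hstab _ hW hxW Set.inter_subset_left] at hb
    obtain ⟨nb, hnb, hnbU⟩ := hb
    refine ⟨na + nb, ?_, ?_⟩
    · push_cast
      rw [hna, hnb]
    · have := hnbU.2
      simp only [Set.mem_preimage] at this
      rwa [← Function.iterate_add_apply] at this
  -- closed under multiplication by naturals, hence under negation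
  have hnsmul : ∀ (k : ℕ) (a : ZMod m), a ∈ R U₀ → (k : ZMod m) * a ∈ R U₀ := by
    intro k a ha
    induction k with
    | zero => simpa using h0
    | succ k ih =>
      have := hadd _ _ ih ha
      have e : (((k + 1 : ℕ)) : ZMod m) * a = (k : ZMod m) * a + a := by push_cast; ring
      rw [e]; exact this
  have hneg : ∀ a : ZMod m, a ∈ R U₀ → -a ∈ R U₀ := by
    intro a ha
    have := hnsmul (m - 1) a ha
    have e : (((m - 1 : ℕ)) : ZMod m) * a = -a := by
      rw [Nat.cast_sub hm]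
      simp
    rwa [e] at this
  -- every residue is a difference of two return residues
  have hr : (r : ZMod m) ∈ R U₀ := by
    have hV : IsOpen ((T^[r]) ⁻¹' U₀) := hU₀.preimage (hiter r)
    have hVne : ((T^[r]) ⁻¹' U₀).Nonempty := by
      obtain ⟨n, hn, y, -, hy⟩ := htt (r + 1) (by omega) U₀ U₀ hU₀ hU₀ ⟨x, hxU₀⟩ ⟨x, hxU₀⟩
      rw [Set.mem_preimage, ← Function.iterate_mul] at hy
      have hle : r ≤ (r + 1) * n := by nlinarith
      refine ⟨T^[(r + 1) * n - r] y, ?_⟩
      rw [Set.mem_preimage, ← Function.iterate_add_apply]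
      rwa [Nat.add_sub_cancel' hle]
    obtain ⟨n, hn, hne⟩ := htt m hm U₀ _ hU₀ hV ⟨x, hxU₀⟩ hVne
    have hopen : IsOpen (U₀ ∩ (T^[m])^[n] ⁻¹' ((T^[r]) ⁻¹' U₀)) := by
      rw [← Function.iterate_mul]
      exact hU₀.inter (hV.preimage (hiter _))
    obtain ⟨z, hz, n₀, rfl⟩ := hx.inter_open_nonempty _ hopen hne
    obtain ⟨h1, h2⟩ := hz
    rw [← Function.iterate_mul, Set.mem_preimage, Set.mem_preimage,
      ← Function.iterate_add_apply, ← Function.iterate_add_apply] at h2
    have ha : (n₀ : ZMod m) ∈ R U₀ := ⟨n₀, rfl, h1⟩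
    have hb : ((r + (m * n + n₀) : ℕ) : ZMod m) ∈ R U₀ := ⟨_, rfl, by rwa [← add_assoc]⟩
    have hc := hadd _ _ hb (hneg _ ha)
    have e : ((r + (m * n + n₀) : ℕ) : ZMod m) + -(n₀ : ZMod m) = (r : ZMod m) := by
      push_cast
      simp
    rwa [e] at hc
  have : (r : ZMod m) ∈ R (U ∩ U₀) := by
    rw [hstab _ (hU.inter hU₀) ⟨hxU, hxU₀⟩ Set.inter_subset_right]
    exact hr
  obtain ⟨n, hn, hnU⟩ := this
  exact ⟨n, hn, hnU.1⟩

/-- **Answer to Q1 (negative).** No syndetic set is a weak interpolation set of order `2` for the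
class of totally transitive systems. -/
theorem result (S : Set ℕ) (hS : IsWeakInterpolationSet.{u} 2 S) : ¬ IsSyndetic S := by
  classical
  rintro ⟨L, hL, hsynd⟩
  -- enumerate all 0-1 words of length `L + 1`
  let N : ℕ := Fintype.card (Fin (L + 1) → Fin 2)
  have hN : 0 < N := Fintype.card_pos
  let e : (Fin (L + 1) → Fin 2) ≃ Fin N := Fintype.equivFin _
  let m : ℕ := (L + 1) * N
  have hm : 1 ≤ m := Nat.mul_pos (Nat.succ_pos L) hN
  -- the adversarial function: the `n`-th letter of the periodic word containing all short words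
  let h : ℕ → Fin 2 := fun n =>
    e.symm ⟨(n / (L + 1)) % N, Nat.mod_lt _ hN⟩ ⟨n % (L + 1), Nat.mod_lt _ (Nat.succ_pos L)⟩
  have hper : ∀ n c : ℕ, h (n + m * c) = h n := by
    intro n c
    have e1 : (n + m * c) / (L + 1) % N = n / (L + 1) % N := by
      have : n + m * c = n + (L + 1) * (N * c) := by simp only [m]; ring
      rw [this, Nat.add_mul_div_left _ _ (Nat.succ_pos L), Nat.add_mul_mod_self_left]
    have e2 : (n + m * c) % (L + 1) = n % (L + 1) := by
      have : n + m * c = n + (L + 1) * (N * c) := by simp only [m]; ring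
      rw [this, Nat.add_mul_mod_self_left]
    simp only [h, e1, e2]
  obtain ⟨X, _, _, T, hT, htt, x, hx, F, hF, hFS⟩ := hS (fun n => h n)
  -- the word opposite to the beginning of the orbit of `x`
  let w : Fin (L + 1) → Fin 2 := fun i => if ‖F (T^[(i : ℕ) + 1] x)‖ < 1 / 2 then 1 else 0
  have hw : ∀ i : Fin (L + 1), 1 / 2 ≤ ‖F (T^[(i : ℕ) + 1] x) - ((w i : ℕ) : ℂ)‖ := by
    intro i
    by_cases hi : ‖F (T^[(i : ℕ) + 1] x)‖ < 1 / 2
    · have : ((w i : ℕ) : ℂ) = 1 := by
        have hwi : w i = 1 := if_pos hi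
        rw [hwi]; simp
      rw [this]
      have h1 : ‖(1 : ℂ)‖ ≤ ‖F (T^[(i : ℕ) + 1] x)‖ + ‖F (T^[(i : ℕ) + 1] x) - 1‖ := by
        have := norm_sub_le (F (T^[(i : ℕ) + 1] x)) (F (T^[(i : ℕ) + 1] x) - 1)
        simpa using this
      rw [norm_one] at h1
      linarith
    · have : ((w i : ℕ) : ℂ) = 0 := by
        have hwi : w i = 0 := if_neg hi
        rw [hwi]; simp
      rw [this, sub_zero]
      exact not_lt.mp hi
  let q : ℕ := (e w : ℕ)
  have hq : q < N := (e w).2
  -- the neighbourhood of `x`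
  let U : Set X := ⋂ i : Fin (L + 1),
    {z : X | ‖F (T^[(i : ℕ) + 1] z) - F (T^[(i : ℕ) + 1] x)‖ < 1 / 2}
  have hU : IsOpen U := by
    refine isOpen_iInter_of_finite fun i => ?_
    have hc : Continuous fun z : X => ‖F (T^[(i : ℕ) + 1] z) - F (T^[(i : ℕ) + 1] x)‖ :=
      ((hF.comp (hT.iterate _)).sub continuous_const).norm
    exact isOpen_lt hc continuous_const
  have hxU : x ∈ U := by
    simp only [U, Set.mem_iInter, Set.mem_ofPred_eq, sub_self, norm_zero]
    intro i
    norm_num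
  obtain ⟨p, hp, hpU⟩ := exists_return_residue hT htt hx hm hU hxU (q * (L + 1) + (m - 1))
  -- `p + 1 ≡ q (L+1)` modulo `m`
  have hp1 : p + 1 ≡ q * (L + 1) [MOD m] := by
    have h1 : p ≡ q * (L + 1) + (m - 1) [MOD m] := (ZMod.natCast_eq_natCast_iff _ _ _).mp hp
    have h2 := h1.add_right 1
    have h3 : q * (L + 1) + (m - 1) + 1 = q * (L + 1) + m := by omega
    rw [h3] at h2
    exact h2.trans (by simp [Nat.ModEq])
  obtain ⟨s, hsS, hs1, hs2⟩ := hsynd (p + 1) (by omega)
  obtain ⟨i, hi⟩ : ∃ i : ℕ, s = p + 1 + i := ⟨s - (p + 1), by omega⟩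
  have hiL : i < L + 1 := by omega
  have hval : h s = w ⟨i, hiL⟩ := by
    have hmod : s ≡ q * (L + 1) + i [MOD m] := by
      rw [hi]; exact hp1.add_right i
    have hlt : q * (L + 1) + i < m := by
      have : q * (L + 1) + (L + 1) ≤ N * (L + 1) := by
        have := Nat.mul_le_mul_right (L + 1) (Nat.succ_le_of_lt hq)
        simpa [Nat.succ_mul] using this
      simp only [m]
      rw [mul_comm (L + 1) N]
      omega
    have hs' : s = (q * (L + 1) + i) + m * (s / m) := by
      have h1 : s % m = q * (L + 1) + i := by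
        have := hmod
        unfold Nat.ModEq at this
        rwa [Nat.mod_eq_of_lt hlt] at this
      rw [← h1]
      exact (Nat.mod_add_div s m).symm
    rw [hs', hper]
    have e1 : (q * (L + 1) + i) / (L + 1) % N = q := by
      rw [mul_comm q (L + 1), Nat.mul_add_div (Nat.succ_pos L), Nat.div_eq_of_lt hiL, add_zero,
        Nat.mod_eq_of_lt hq]
    have e2 : (q * (L + 1) + i) % (L + 1) = i := by
      rw [mul_comm q (L + 1), Nat.mul_add_mod, Nat.mod_eq_of_lt hiL]
    simp only [h, e1, e2]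
    have : (⟨q, hq⟩ : Fin N) = e w := rfl
    rw [this, Equiv.symm_apply_apply]
  have hclose : ‖F (T^[i + 1] (T^[p] x)) - F (T^[i + 1] x)‖ < 1 / 2 := by
    have := hpU
    simp only [U, Set.mem_iInter, Set.mem_ofPred_eq] at this
    exact this ⟨i, hiL⟩
  have hFs := hFS ⟨s, hsS⟩
  simp only at hFs
  rw [hval] at hFs
  have hadd : T^[i + 1] (T^[p] x) = T^[s] x := by
    rw [← Function.iterate_add_apply]
    congr 2
    omega
  rw [hadd, hFs] at hclose
  have := hw ⟨i, hiL⟩
  rw [norm_sub_rev] at this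
  simp only at this
  exact absurd hclose (not_lt.mpr this)

end Pool.Agent.Results.MP_816335_an.SyndeticFails
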